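import Mathlib
import Pool.Agent.H86.CMLib.H204R3.GP.MTDefs

/-!
# The Mumford-Tate group and the Mumford-Tate conjecture in terms of Hodge and Tate tensors

`W = H_1(A, ℚ)` is the rational homology of a complex abelian variety `A`, `T` its tangent space at
the origin and `per : W → T` the inclusion; `V = k ⊗ W` with the inclusion `comp : W → V`.
-/

namespace Pool.Agent.TH118.MT

open Pool.Agent.H204R3.GP TensorProduct

variable {k V Γ : Type} [Field k] [CharZero k] [AddCommGroup V] [Module k V] [Group Γ]
  {W T : Type} [AddCommGroup W] [Module ℚ W] [AddCommGroup T] [Module ℂ T]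

/-- The space of the `k`-linear combinations of Hodge classes in the space of the multilinear forms
on `V = k ⊗ H_1(A, ℚ)` in `2 m` variables. -/
def HodgeSpan (per : W →+ T) (comp : W →+ V) (m : ℕ) :
    Submodule k (MultilinearMap k (fun _ : Fin m × Fin 2 => V) k) :=
  Submodule.span k {φ | ∃ ψ : MultilinearMap ℚ (fun _ : Fin m × Fin 2 => W) ℚ,
    IsHodgeTensor per ψ ∧ Compares comp φ ψ}

/-- The automorphism `h` of `V = k ⊗ H_1(A, ℚ)` with the multiplier `c` is a point over `k` of the
Mumford-Tate group of `A`: it fixes all Hodge classes (`c` is the action on the Tate twist). -/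
def InMumfordTate (per : W →+ T) (comp : W →+ V) (h : V ≃ₗ[k] V) (c : k) : Prop :=
  ∀ (m : ℕ), ∀ φ ∈ HodgeSpan (k := k) per comp m, ∀ v, φ (fun l => h (v l)) = c ^ m * φ v

/-- The Mumford-Tate conjecture for `A`: all Tate classes in the tensor powers of the first
cohomology group are linear combinations of Hodge classes. -/
def MumfordTate (per : W →+ T) (comp : W →+ V) (ρ : Representation k Γ V) (χ : Γ →* k) : Prop :=
  ∀ (m : ℕ) (φ : MultilinearMap k (fun _ : Fin m × Fin 2 => V) k), IsTateTensor ρ χ m φ →
    φ ∈ HodgeSpan (k := k) per comp m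

/-- The theorem on the centre (the centres of the `ℓ`-adic monodromy group and of the Mumford-Tate
group have the same identity component): a Tate class which spans a line that is stable
under the Mumford-Tate group is a linear combination of Hodge classes. -/
def CentreTheorem (per : W →+ T) (comp : W →+ V) (ρ : Representation k Γ V) (χ : Γ →* k) : Prop :=
  ∀ (m : ℕ) (φ : MultilinearMap k (fun _ : Fin m × Fin 2 => V) k), IsTateTensor ρ χ m φ →
    (∀ (h : V ≃ₗ[k] V) (c : k), InMumfordTate per comp h c →
      ∃ a : k, ∀ v, φ (fun l => h (v l)) = a * φ v) →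
    φ ∈ HodgeSpan (k := k) per comp m

end Pool.Agent.TH118.MT
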