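import Mathlib
import Pool.Agent.H86.CMLib.TH118.MT.Defs
import Pool.Agent.H86.CMLib.TH118.WC.X
import Pool.Agent.H86.CMLib.H204R3.GP.MT

/-!
# Products of determinants span lines stable under the Mumford-Tate group
-/

set_option linter.unusedSectionVars false

namespace Pool.Agent.TH118.MT

open Module TensorProduct Pool.Agent.H204R3.SP Pool.Agent.H204R3.GP Pool.Agent.W522.U
open Pool.Agent.TH118.WC

section line

variable {K : Type} [Field K] [CharZero K] {X : Type} [AddCommGroup X] [Module K X]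
  [FiniteDimensional K X]

/-- A determinant is multiplied by a constant. -/
theorem det_line {n : ℕ} {U : Submodule K X} (f : Basis (Fin n) K U) (h h' : X →ₗ[K] X) (c : K)
    (hh : ∀ u, h (h' u) = u) (hU : ∀ u ∈ U, h' u ∈ U) (C : Fin n → X →ₗ[K] X →ₗ[K] K)
    (hC : ∀ s u v, C s (h u) (h v) = c * C s u v) (v : Fin n → X) :
    Matrix.det (Matrix.of fun s s' => C s (h (v s)) (f s' : X)) =
      c ^ n * LinearMap.det (h'.restrict hU) *
        Matrix.det (Matrix.of fun s s' => C s (v s) (f s' : X)) := by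
  classical
  have h1 : (Matrix.of fun s s' => C s (h (v s)) (f s' : X)) =
      c • ((Matrix.of fun s s' => C s (v s) (f s' : X)) *
        LinearMap.toMatrix f f (h'.restrict hU)) := by
    ext s s'
    rw [Matrix.smul_apply, Matrix.mul_apply, Matrix.of_apply, smul_eq_mul]
    have h2 : C s (h (v s)) (f s' : X) = c * C s (v s) (h' (f s')) := by
      rw [← hC, hh]
    have h3 : h' (f s' : X) = ∑ t, (LinearMap.toMatrix f f (h'.restrict hU)) t s' • (f t : X) := by
      have h4 := f.sum_repr ((h'.restrict hU) (f s'))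
      have h5 := congrArg (fun x : U => (x : X)) h4
      simp only [Submodule.coe_sum, Submodule.coe_smul] at h5
      simp only [LinearMap.toMatrix_apply]
      exact h5.symm
    rw [h2, h3, map_sum]
    congr 1
    refine Finset.sum_congr rfl fun t _ => ?_
    rw [map_smul, smul_eq_mul, Matrix.of_apply, mul_comm]
  rw [h1, Matrix.det_smul, Matrix.det_mul, LinearMap.det_toMatrix, Fintype.card_fin]
  ring

variable {Γ : Type} [Group Γ] {R : Representation K Γ X} {χ : Γ →* K}

/-- The product form. -/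
theorem prod_line {P Q : Type} [Fintype P] [Fintype Q] {κ : Type} {U : Q → Submodule K X}
    (f : ∀ q, Basis (Fin (finrank K (U q))) K (U q))
    (e : (P × Fin 2) ⊕ (Σ q, Fin (finrank K (U q))) ≃ κ)
    (B : P → X →ₗ[K] X →ₗ[K] K) (C : ∀ q, Fin (finrank K (U q)) → X →ₗ[K] X →ₗ[K] K)
    (h h' : X →ₗ[K] X) (c : K) (hh : ∀ u, h (h' u) = u) (hU : ∀ q, ∀ u ∈ U q, h' u ∈ U q)
    (hB : ∀ p u v, B p (h u) (h v) = c * B p u v)
    (hC : ∀ q s u v, C q s (h u) (h v) = c * C q s u v) (v : κ → X) :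
    (∏ p, B p (h (v (e (Sum.inl (p, 0))))) (h (v (e (Sum.inl (p, 1)))))) *
      ∏ q, Matrix.det (Matrix.of fun s s' => C q s (h (v (e (Sum.inr ⟨q, s⟩)))) (f q s' : X)) =
    (c ^ Fintype.card P * ∏ q, (c ^ finrank K (U q) * LinearMap.det (h'.restrict (hU q)))) *
    ((∏ p, B p (v (e (Sum.inl (p, 0)))) (v (e (Sum.inl (p, 1))))) *
      ∏ q, Matrix.det (Matrix.of fun s s' => C q s (v (e (Sum.inr ⟨q, s⟩))) (f q s' : X))) := by
  have h1 : ∀ q, Matrix.det (Matrix.of fun s s' =>
      C q s (h (v (e (Sum.inr ⟨q, s⟩)))) (f q s' : X)) =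
      (c ^ finrank K (U q) * LinearMap.det (h'.restrict (hU q))) *
      Matrix.det (Matrix.of fun s s' => C q s (v (e (Sum.inr ⟨q, s⟩))) (f q s' : X)) :=
    fun q => det_line (f q) h h' c hh (hU q) (C q) (hC q) (fun s => v (e (Sum.inr ⟨q, s⟩)))
  rw [Finset.prod_congr rfl fun p _ => hB p _ _, Finset.prod_congr rfl fun q _ => h1 q,
    Finset.prod_mul_distrib, Finset.prod_mul_distrib, Finset.prod_const, Finset.card_univ]
  ring

end line

section main

variable {K : Type} [Field K] [CharZero K] {X : Type} [AddCommGroup X] [Module K X]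
  [FiniteDimensional K X] {Γ : Type} [Group Γ] {R : Representation K Γ X} {χ : Γ →* K}
  {W T : Type} [AddCommGroup W] [Module ℚ W] [AddCommGroup T] [Module ℂ T]

/-- The elements of the Mumford-Tate group multiply the Tate forms of degree two by the multiplier. -/
theorem mt_two {per : W →+ T} {comp : W →+ X}
    (hF : ∀ B : X →ₗ[K] X →ₗ[K] K, IsTate2 R χ B → B ∈ Submodule.span K (HB (k := K) per comp))
    {h : X ≃ₗ[K] X} {c : K} (hh : InMumfordTate per comp h c) (B : X →ₗ[K] X →ₗ[K] K)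
    (hB : IsTate2 R χ B) (u v : X) : B (h u) (h v) = c * B u v := by
  have h1 := hF B hB
  clear hB
  induction h1 using Submodule.span_induction with
  | mem B hB' =>
    obtain ⟨B₀, ⟨E, hE1, hE2⟩, hBB⟩ := hB'
    let φ : MultilinearMap K (fun _ : Fin 1 × Fin 2 => X) K := mmG (Equiv.refl _) (fun _ => B)
    let ψ : MultilinearMap ℚ (fun _ : Fin 1 × Fin 2 => W) ℚ := mmG (Equiv.refl _) (fun _ => B₀)
    let Ψ : MultilinearMap ℝ (fun _ : Fin 1 × Fin 2 => T) ℝ := mmG (Equiv.refl _) (fun _ => E)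
    have hφ : ∀ w, φ w = B (w (0, 0)) (w (0, 1)) := by
      intro w
      rw [mmG_apply, Fin.prod_univ_one]
      rfl
    have hψ : ∀ w, ψ w = B₀ (w (0, 0)) (w (0, 1)) := by
      intro w
      rw [mmG_apply, Fin.prod_univ_one]
      rfl
    have hΨ : ∀ w, Ψ w = E (w (0, 0)) (w (0, 1)) := by
      intro w
      rw [mmG_apply, Fin.prod_univ_one]
      rfl
    have h2 : φ ∈ HodgeSpan (k := K) per comp 1 := by
      refine Submodule.subset_span ⟨ψ, ⟨Ψ, fun w => ?_, fun z hz w => ?_⟩, fun w => ?_⟩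
      · rw [hΨ, hψ, hE1]
      · rw [hΨ, hΨ, hE2 z hz]
      · rw [hφ, hψ, hBB]
    have h3 := hh 1 φ h2 (fun l => if l.2 = 0 then u else v)
    rw [hφ, hφ, pow_one] at h3
    simpa using h3
  | zero => simp
  | add B B' _ _ h1 h2 =>
    simp only [LinearMap.add_apply, h1, h2, mul_add]
  | smul a B _ h1 =>
    simp only [LinearMap.smul_apply, h1, smul_eq_mul]
    ring

variable (ω : X →ₗ[K] X →ₗ[K] K) (hnd : ∀ u, (∀ v, ω u v = 0) → u = 0)
  (hωR : ∀ g u v, ω (R g u) (R g v) = χ g * ω u v) (hss : HasProj R)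

include hnd hωR hss in
/-- The elements of the Mumford-Tate group preserve all strongly irreducible subspaces. -/
theorem mt_stable {per : W →+ T} {comp : W →+ X}
    (hF : ∀ B : X →ₗ[K] X →ₗ[K] K, IsTate2 R χ B → B ∈ Submodule.span K (HB (k := K) per comp))
    {h : X ≃ₗ[K] X} {c : K} (hh : InMumfordTate per comp h c) {U : Submodule K X}
    (hU : SI R U) : ∀ u ∈ U, h.symm u ∈ U := by
  obtain ⟨Δ, hΔ, hst⟩ := hU.2.1
  obtain ⟨p, hp1, hp2, hp3⟩ := hss Δ hΔ U hst
  have h1 : ∀ u v, ω (p (h u)) (h v) = c * ω (p u) v := fun u v =>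
    mt_two hF hh (ω.comp p) ⟨Δ, hΔ, fun g hg u v => by
      rw [LinearMap.comp_apply, LinearMap.comp_apply, hp3 g hg, hωR]⟩ u v
  have h2 : ∀ u v, ω (h u) (h v) = c * ω u v := fun u v =>
    mt_two hF hh ω ⟨⊤, inferInstance, fun g _ u v => hωR g u v⟩ u v
  have h3 : ∀ u, p (h u) = h (p u) := by
    intro u
    rw [← sub_eq_zero]
    refine hnd _ fun v => ?_
    obtain ⟨v, rfl⟩ := h.surjective v
    rw [map_sub, LinearMap.sub_apply, h1, h2, sub_self]
  intro u hu
  have h4 : p (h.symm u) = h.symm u := by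
    apply h.injective
    rw [← h3, h.apply_symm_apply, hp2 u hu]
  rw [← h4]
  exact hp1 _

include hnd hωR hss in
/-- The products of determinants span lines that are stable under the Mumford-Tate group. -/
theorem detProd_line {per : W →+ T} {comp : W →+ X}
    (hF : ∀ B : X →ₗ[K] X →ₗ[K] K, IsTate2 R χ B → B ∈ Submodule.span K (HB (k := K) per comp))
    {m : ℕ} {φ : MultilinearMap K (fun _ : Fin m × Fin 2 => X) K} (hφ : φ ∈ DetProd R χ m)
    {h : X ≃ₗ[K] X} {c : K} (hh : InMumfordTate per comp h c) :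
    ∃ a : K, ∀ v, φ (fun l => h (v l)) = a * φ v := by
  obtain ⟨P, Q, hP, hQ, U, f, e, B, C, hB, hC, hU, -, -, hφ⟩ := hφ
  have hst : ∀ q, ∀ u ∈ U q, h.symm.toLinearMap u ∈ U q := fun q =>
    mt_stable ω hnd hωR hss hF hh (hU q)
  refine ⟨c ^ Fintype.card P * ∏ q, (c ^ finrank K (U q) *
    LinearMap.det (h.symm.toLinearMap.restrict (hst q))), fun v => ?_⟩
  rw [hφ, hφ]
  exact prod_line f e B C h.toLinearMap h.symm.toLinearMap c (fun u => h.apply_symm_apply u) hst
    (fun p u v => mt_two hF hh _ (hB p) u v) (fun q s u v => mt_two hF hh _ (hC q s) u v) v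

/-- The products of determinants are Tate classes. -/
theorem detProd_tate {m : ℕ} {φ : MultilinearMap K (fun _ : Fin m × Fin 2 => X) K}
    (hφ : φ ∈ DetProd R χ m) : IsTate R χ m φ := by
  classical
  obtain ⟨P, Q, hP, hQ, U, f, e, B, C, hB, hC, hU, -, ⟨d, Δ₀, hst, hΔ₀, hd, hdet⟩, hφ⟩ := hφ
  choose DB hDB hB using hB
  choose DC hDC hC using hC
  have h1 : (⨅ p, DB p).FiniteIndex := Subgroup.finiteIndex_iInf hDB
  have h2 : (⨅ q, ⨅ s, DC q s).FiniteIndex :=
    Subgroup.finiteIndex_iInf fun q => Subgroup.finiteIndex_iInf (hDC q)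
  refine ⟨(Δ₀ ⊓ ⨅ p, DB p) ⊓ ⨅ q, ⨅ s, DC q s, inferInstance, fun g hg v => ?_⟩
  have hg0 : g ∈ Δ₀ := hg.1.1
  have hgB : ∀ p, g ∈ DB p := fun p => Subgroup.mem_iInf.1 hg.1.2 p
  have hgC : ∀ q s, g ∈ DC q s := fun q s =>
    Subgroup.mem_iInf.1 (Subgroup.mem_iInf.1 hg.2 q) s
  have hinv : ∀ u, R g (R g⁻¹ u) = u := by
    intro u
    rw [← Module.End.mul_apply, ← map_mul, mul_inv_cancel, map_one, Module.End.one_apply]
  have h3 := prod_line f e B C (R g) (R g⁻¹) (χ g) hinv
    (fun q => hst q g⁻¹ (Δ₀.inv_mem hg0)) (fun p u v => hB p g (hgB p) u v)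
    (fun q s u v => hC q s g (hgC q s) u v) v
  rw [hφ, hφ, h3]
  congr 1
  have h4 := hdet g⁻¹ (Δ₀.inv_mem hg0)
  have hcard : 2 * Fintype.card P + 2 * d = 2 * m := by
    have h5 := Fintype.card_congr e
    rw [Fintype.card_sum, Fintype.card_prod, Fintype.card_prod, Fintype.card_fin,
      Fintype.card_fin, Fintype.card_sigma] at h5
    simp only [Fintype.card_fin] at h5
    omega
  have hm : m = Fintype.card P + d := by omega
  have hχ : χ g * χ g⁻¹ = 1 := by rw [← map_mul, mul_inv_cancel, map_one]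
  rw [Finset.prod_mul_distrib, h4, Finset.prod_pow_eq_pow_sum, ← hd, hm, pow_add]
  congr 1
  rw [two_mul, pow_add, mul_assoc, ← mul_pow, hχ, one_pow, mul_one]

include hnd hωR hss in
/-- The Mumford-Tate conjecture, if all Tate classes are combinations of products of determinants
and classes of degree two. -/
theorem mumfordTate_of_det {per : W →+ T} {comp : W →+ X}
    (hF : ∀ B : X →ₗ[K] X →ₗ[K] K, IsTate2 R χ B → B ∈ Submodule.span K (HB (k := K) per comp))
    (hcen : CentreTheorem per comp R χ)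
    (hD : ∀ (m : ℕ) (φ : MultilinearMap K (fun _ : Fin m × Fin 2 => X) K), IsTate R χ m φ →
      φ ∈ Submodule.span K (DetProd R χ m)) : MumfordTate per comp R χ := by
  intro m φ hφ
  refine Submodule.span_le.2 ?_ (hD m φ hφ)
  intro ψ hψ
  exact hcen m ψ (detProd_tate hψ) fun h c hh => detProd_line ω hnd hωR hss hF hψ hh

end main

end Pool.Agent.TH118.MT
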