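import Mathlib
import Pool.Agent.H86.CMLib.TH118.MT.Line
import Pool.Agent.H86.CMLib.H204R3.GP.DescentG

/-!
# Extension of the base field
-/

set_option linter.unusedSectionVars false

namespace Pool.Agent.TH118.MT

open Module TensorProduct Pool.Agent.H204R3.SP Pool.Agent.H204R3.GP

noncomputable section

variable {k : Type} [Field k] [CharZero k] {V : Type} [AddCommGroup V] [Module k V]
  [FiniteDimensional k V] {Γ : Type} [Group Γ] {ρ : Representation k Γ V} {χ : Γ →* k}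
  {W T : Type} [AddCommGroup W] [Module ℚ W] [AddCommGroup T] [Module ℂ T]
  (K : Type) [Field K] [CharZero K] [Algebra k K]

/-- The map from `W` to `K ⊗ V` given by `comp`. -/
def extend (comp : W →+ V) : W →+ K ⊗[k] V :=
  (TensorProduct.mk k K V 1).toAddMonoidHom.comp comp

theorem extend_apply (comp : W →+ V) (w : W) : extend (k := k) K comp w = (1 : K) ⊗ₜ[k] comp w := rfl

variable {K}

theorem bcb_ext {ν : Type} [Finite ν] (b : Basis ν k V)
    {B B' : (K ⊗[k] V) →ₗ[K] (K ⊗[k] V) →ₗ[K] K}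
    (h : ∀ x y, B ((1 : K) ⊗ₜ[k] b x) ((1 : K) ⊗ₜ[k] b y) =
      B' ((1 : K) ⊗ₜ[k] b x) ((1 : K) ⊗ₜ[k] b y)) : B = B' := by
  refine LinearMap.ext_basis (b.baseChange K) (b.baseChange K) fun x y => ?_
  rw [Basis.baseChange_apply, Basis.baseChange_apply]
  exact h x y

/-- The Tate forms of degree two over the larger field. -/
theorem tate2_span {B : (K ⊗[k] V) →ₗ[K] (K ⊗[k] V) →ₗ[K] K}
    (hB : IsTate2 (bcr ρ K) (bcc χ K) B) :
    B ∈ Submodule.span K ((bcb K) '' {B₀ : V →ₗ[k] V →ₗ[k] k | IsTate2 ρ χ B₀}) := by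
  classical
  obtain ⟨b⟩ : Nonempty (Basis (Fin (finrank k V)) k V) := ⟨Module.finBasis k V⟩
  obtain ⟨ι, ⟨w⟩⟩ : ∃ ι : Type, Nonempty (Basis ι k K) := ⟨_, ⟨Basis.ofVectorSpace k K⟩⟩
  let cmp : ι → (V →ₗ[k] V →ₗ[k] k) := fun i =>
    LinearMap.mk₂ k (fun u v => w.repr (B ((1 : K) ⊗ₜ[k] u) ((1 : K) ⊗ₜ[k] v)) i)
      (fun u u' v => by
        rw [TensorProduct.tmul_add, map_add, LinearMap.add_apply, map_add, Finsupp.add_apply])
      (fun c u v => by
        rw [TensorProduct.tmul_smul, ← algebraMap_smul K c ((1 : K) ⊗ₜ[k] u), map_smul,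
          LinearMap.smul_apply, algebraMap_smul, map_smul, Finsupp.smul_apply])
      (fun u v v' => by
        rw [TensorProduct.tmul_add, map_add, map_add, Finsupp.add_apply])
      (fun c u v => by
        rw [TensorProduct.tmul_smul, ← algebraMap_smul K c ((1 : K) ⊗ₜ[k] v), map_smul,
          algebraMap_smul, map_smul, Finsupp.smul_apply])
  have hcmp : ∀ i u v, cmp i u v = w.repr (B ((1 : K) ⊗ₜ[k] u) ((1 : K) ⊗ₜ[k] v)) i :=
    fun _ _ _ => rfl
  have htate : ∀ i, IsTate2 ρ χ (cmp i) := by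
    intro i
    obtain ⟨Δ, hΔ, h⟩ := hB
    refine ⟨Δ, hΔ, fun s hs u v => ?_⟩
    rw [hcmp, hcmp]
    have h1 := h s hs ((1 : K) ⊗ₜ[k] u) ((1 : K) ⊗ₜ[k] v)
    rw [bcr_tmul, bcr_tmul, bcc_apply] at h1
    rw [h1, ← Algebra.smul_def, map_smul, Finsupp.smul_apply, smul_eq_mul]
  let S : Finset ι :=
    Finset.univ.biUnion fun p : Fin (finrank k V) × Fin (finrank k V) =>
      (w.repr (B ((1 : K) ⊗ₜ[k] b p.1) ((1 : K) ⊗ₜ[k] b p.2))).support
  have h1 : B = ∑ i ∈ S, w i • bcb K (cmp i) := by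
    refine bcb_ext b fun x y => ?_
    rw [LinearMap.sum_apply, LinearMap.sum_apply]
    have h2 := w.linearCombination_repr (B ((1 : K) ⊗ₜ[k] b x) ((1 : K) ⊗ₜ[k] b y))
    have hsub : (w.repr (B ((1 : K) ⊗ₜ[k] b x) ((1 : K) ⊗ₜ[k] b y))).support ⊆ S :=
      fun i hi => Finset.mem_biUnion.2 ⟨(x, y), Finset.mem_univ _, hi⟩
    rw [Finsupp.linearCombination_apply, Finsupp.sum_of_support_subset _ hsub
      (fun i a => a • w i) (fun i _ => zero_smul _ _)] at h2
    nth_rewrite 1 [← h2]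
    refine Finset.sum_congr rfl fun i _ => ?_
    rw [LinearMap.smul_apply, LinearMap.smul_apply, bcb_one, hcmp, smul_eq_mul, Algebra.smul_def,
      mul_comm]
  rw [h1]
  exact Submodule.sum_mem _ fun i _ => Submodule.smul_mem _ _
    (Submodule.subset_span ⟨_, htate i, rfl⟩)

/-- The Hodge forms of degree two over the larger field. -/
theorem hb_span {per : W →+ T} {comp : W →+ V} {B : V →ₗ[k] V →ₗ[k] k}
    (hB : B ∈ Submodule.span k (HB (k := k) per comp)) :
    bcb K B ∈ Submodule.span K (HB (k := K) per (extend (k := k) K comp)) := by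
  let b := Module.finBasis k V
  induction hB using Submodule.span_induction with
  | mem B hB =>
    obtain ⟨B₀, h0, h1⟩ := hB
    refine Submodule.subset_span ⟨B₀, h0, fun x y => ?_⟩
    rw [extend_apply, extend_apply, bcb_one, h1, map_ratCast]
  | zero =>
    have h1 : bcb K (0 : V →ₗ[k] V →ₗ[k] k) = 0 := bcb_ext b fun x y => by
      rw [bcb_one]
      simp
    rw [h1]
    exact Submodule.zero_mem _
  | add B B' _ _ h1 h2 =>
    have h3 : bcb K (B + B') = bcb K B + bcb K B' := bcb_ext b fun x y => by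
      simp only [LinearMap.add_apply, bcb_one, map_add]
    rw [h3]
    exact Submodule.add_mem _ h1 h2
  | smul a B _ h1 =>
    have h3 : bcb K (a • B) = (algebraMap k K a) • bcb K B := bcb_ext b fun x y => by
      simp only [LinearMap.smul_apply, bcb_one, smul_eq_mul, map_mul]
    rw [h3]
    exact Submodule.smul_mem _ _ h1

/-- The theorem of Faltings over the larger field. -/
theorem faltings_ext {per : W →+ T} {comp : W →+ V}
    (hF : ∀ B : V →ₗ[k] V →ₗ[k] k, IsTate2 ρ χ B → B ∈ Submodule.span k (HB (k := k) per comp))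
    (B : (K ⊗[k] V) →ₗ[K] (K ⊗[k] V) →ₗ[K] K) (hB : IsTate2 (bcr ρ K) (bcc χ K) B) :
    B ∈ Submodule.span K (HB (k := K) per (extend (k := k) K comp)) := by
  refine Submodule.span_le.2 ?_ (tate2_span hB)
  rintro _ ⟨B₀, hB₀, rfl⟩
  exact hb_span (hF B₀ hB₀)

end

section descent

variable {k : Type} [Field k] [CharZero k] {Γ : Type} [Group Γ]
  {W T : Type} [AddCommGroup W] [Module ℚ W] [FiniteDimensional ℚ W] [AddCommGroup T] [Module ℂ T]
  {K : Type} [Field K] [CharZero K] [Algebra k K]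

/-- The inclusion of `W = H_1(A, ℚ)` in `k ⊗ W`. -/
noncomputable def incl (k W : Type) [Field k] [CharZero k] [AddCommGroup W] [Module ℚ W] :
    W →+ k ⊗[ℚ] W :=
  (TensorProduct.mk ℚ k W 1).toAddMonoidHom

theorem incl_apply (w : W) : incl k W w = (1 : k) ⊗ₜ[ℚ] w := rfl

/-- Descent of the Mumford-Tate conjecture. -/
theorem mumfordTate_descent {ρ : Representation k Γ (k ⊗[ℚ] W)} {χ : Γ →* k} {per : W →+ T}
    (h : MumfordTate per (extend (k := k) K (incl k W)) (bcr ρ K) (bcc χ K)) :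
    MumfordTate per (incl k W) ρ χ := by
  classical
  intro m φ hφ
  let b₀ := Module.finBasis ℚ W
  let b := b₀.baseChange k
  have h1 := h m _ (bcm_tate (Ω := K) b ρ χ φ hφ)
  let res : MultilinearMap K (fun _ : Fin m × Fin 2 => K ⊗[k] (k ⊗[ℚ] W)) K →ₗ[K]
      ((Fin m × Fin 2 → W) → K) :=
    { toFun := fun F v => F (fun l => (1 : K) ⊗ₜ[k] ((1 : k) ⊗ₜ[ℚ] v l))
      map_add' := fun _ _ => rfl
      map_smul' := fun _ _ => rfl }
  let emb : MultilinearMap k (fun _ : Fin m × Fin 2 => k ⊗[ℚ] W) k →ₗ[k]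
      ((Fin m × Fin 2 → W) → k) :=
    { toFun := fun F v => F (fun l => (1 : k) ⊗ₜ[ℚ] v l)
      map_add' := fun _ _ => rfl
      map_smul' := fun _ _ => rfl }
  let S : Set (MultilinearMap k (fun _ : Fin m × Fin 2 => k ⊗[ℚ] W) k) :=
    {φ | ∃ ψ : MultilinearMap ℚ (fun _ : Fin m × Fin 2 => W) ℚ,
      IsHodgeTensor per ψ ∧ Compares (incl k W) φ ψ}
  have h2 : res (bcm (Ω := K) b φ) = fun v => algebraMap k K (emb φ v) := by
    funext v
    exact bcm_one b φ _
  have h3 : (fun v => algebraMap k K (emb φ v)) ∈ Submodule.span K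
      {g : (Fin m × Fin 2 → W) → K | ∃ s ∈ emb '' S, g = fun x => algebraMap k K (s x)} := by
    rw [← h2]
    have h4 : (HodgeSpan (k := K) per (extend (k := k) K (incl k W)) m).map res ≤
        Submodule.span K
      {g : (Fin m × Fin 2 → W) → K | ∃ s ∈ emb '' S, g = fun x => algebraMap k K (s x)} := by
      rw [HodgeSpan, Submodule.map_span, Submodule.span_le]
      rintro _ ⟨φ', ⟨ψ, hψ, hc⟩, rfl⟩
      have h5 : ∀ v, bcm (Ω := k) b₀ ψ (fun l => (1 : k) ⊗ₜ[ℚ] v l) = ((ψ v : ℚ) : k) := by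
        intro v
        rw [bcm_one, eq_ratCast]
      refine Submodule.subset_span ⟨_, ⟨bcm (Ω := k) b₀ ψ, ⟨ψ, hψ, h5⟩, rfl⟩, ?_⟩
      funext v
      change φ' (fun l => (1 : K) ⊗ₜ[k] ((1 : k) ⊗ₜ[ℚ] v l)) =
        algebraMap k K (bcm (Ω := k) b₀ ψ (fun l => (1 : k) ⊗ₜ[ℚ] v l))
      rw [h5, map_ratCast]
      exact hc v
    exact h4 (Submodule.mem_map_of_mem h1)
  have h4 := span_descent_k _ _ h3
  rw [← Submodule.map_span] at h4
  obtain ⟨φ', hφ', hφφ⟩ := h4
  have h6 : φ' = φ := by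
    refine Basis.ext_multilinear (fun _ => b) fun I => ?_
    have h7 := congrFun hφφ (fun l => b₀ (I l))
    have h8 : ∀ l, b (I l) = (1 : k) ⊗ₜ[ℚ] b₀ (I l) := fun l => Basis.baseChange_apply _ _ _
    simp only [h8]
    exact h7
  rw [← h6]
  exact hφ'

end descent

end Pool.Agent.TH118.MT
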